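import Pool.Agent.helper73.UFG.GEN

/-! Row ufg:COM of MP_37e5fa_nt -/

set_option autoImplicit false

namespace Pool.Agent.UFG

open Finset NumberField nonZeroDivisors Pool.Agent.UF

theorem COM_pow {R : Type} [CommRing R] [IsDomain R] (n : ℕ) (hn : n ≠ 0) (y : R)
    (hy : IsPrimitiveRoot y n) (a b : ℕ) (hab : a ≤ b) (h : y ^ a = y ^ b) : (n : ℤ) ∣ (b : ℤ) - a := by
  have hy0 : y ^ a ≠ 0 := by
    refine pow_ne_zero _ ?_
    intro h0
    have h1 := hy.pow_eq_one
    rw [h0, zero_pow hn] at h1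
    exact zero_ne_one h1
  have h1 : y ^ (b - a) = 1 := by
    have h2 : y ^ a * y ^ (b - a) = y ^ a * 1 := by
      rw [← pow_add, mul_one, h]
      congr 1
      omega
    exact mul_left_cancel₀ hy0 h2
  have h3 := hy.dvd_of_pow_eq_one _ h1
  rw [← Nat.cast_sub hab]
  exact_mod_cast h3

theorem COM_pow' {R : Type} [CommRing R] [IsDomain R] (n : ℕ) (hn : n ≠ 0) (y : R)
    (hy : IsPrimitiveRoot y n) (a b : ℕ) (h : y ^ a = y ^ b) : (n : ℤ) ∣ (b : ℤ) - a := by
  rcases Nat.le_total a b with hab | hab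
  · exact COM_pow n hn y hy a b hab h
  · have := COM_pow n hn y hy b a hab h.symm
    rw [← dvd_neg, neg_sub] at this
    exact this

theorem COM : COM_stmt := by
  intro m n R _ _ y ρ hn hM hy hρ k σ hF hσ k' s j hs hsρ
  have h1 : ∀ p ∈ n.primeFactors, y ^ j = y ^ (k p * j) := by
    intro p hp
    have hσy := (hF p hp).1
    have hcomm : ∀ a, (σ p) (s a) = s ((σ p) a) := by
      intro a
      exact hy.ext ((σ p : R →+* R).comp (s : R →+* R)) ((s : R →+* R).comp (σ p : R →+* R)) (by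
        show (σ p) (s y) = s ((σ p) y)
        rw [hs, hσy, map_pow, map_pow, hσy, hs, ← pow_mul, ← pow_mul, mul_comm]) a
    have h2 := hcomm ρ
    rw [hσ p hp, hsρ, map_mul, map_pow, hσy, hσ p hp, ← pow_mul] at h2
    exact (mul_right_cancel₀ hρ h2).symm
  have h2 : ∀ p ∈ n.primeFactors, (n : ℤ) ∣ ((k p * j : ℕ) : ℤ) - j := fun p hp =>
    COM_pow' n hn y hy.1 _ _ (h1 p hp)
  have h3 : (n : ℤ) ∣ ((j * 2 ^ (m + 1) : ℕ) : ℤ) := by
    refine GEN_dvd n hn _ ?_
    intro p hp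
    have h4 : ((p ^ n.factorization p : ℕ) : ℤ) ∣ (n : ℤ) := by
      exact_mod_cast Nat.ordProj_dvd n p
    have h5 := h4.trans (h2 p hp)
    by_cases hp2 : p = 2
    · have h6 := (hF p hp).2.2.2 hp2
      rw [Nat.modEq_iff_dvd] at h6
      have h7 : ((j * 2 ^ (m + 1) : ℕ) : ℤ) = (((1 + 2 ^ (m + 1) : ℕ) : ℤ) - (k p : ℤ)) * j +
          (((k p * j : ℕ) : ℤ) - j) := by
        push_cast
        ring
      rw [h7]
      exact dvd_add (h6.mul_right _) h5
    · have h6 := (hF p hp).2.2.1 hp2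
      rw [Nat.modEq_iff_dvd] at h6
      have h7 : (j : ℤ) = (((2 : ℕ) : ℤ) - (k p : ℤ)) * j + (((k p * j : ℕ) : ℤ) - j) := by
        push_cast
        ring
      have h8 : ((p ^ n.factorization p : ℕ) : ℤ) ∣ (j : ℤ) := by
        rw [h7]
        exact dvd_add (h6.mul_right _) h5
      push_cast
      push_cast at h8
      exact h8.mul_right _
  rw [← pow_mul]
  obtain ⟨c, hc⟩ : n ∣ j * 2 ^ (m + 1) := by exact_mod_cast h3
  rw [hc, pow_mul, hy.1.pow_eq_one, one_pow]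

end Pool.Agent.UFG
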