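import Pool.Agent.helper76.UFG.Spec

/-! Row ufg:EXP of MP_37e5fa_nt -/

set_option autoImplicit false

namespace Pool.Agent.UFG

open Finset NumberField nonZeroDivisors Pool.Agent.UF

theorem EXP_cop {R : Type} [CommRing R] (x : R) (f : ℕ → R) (s : Multiset ℕ)
    (h : ∀ t ∈ s, IsCoprime x (f t)) : IsCoprime x (s.map f).prod := by
  induction s using Multiset.induction_on with
  | empty => simpa using isCoprime_one_right
  | cons a s ih =>
    rw [Multiset.map_cons, Multiset.prod_cons]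
    exact IsCoprime.mul_right (h a (Multiset.mem_cons_self a s))
      (ih (fun t ht => h t (Multiset.mem_cons_of_mem ht)))

theorem EXP_dvd {R : Type} [CommRing R] (x : R) (f : ℕ → R) (s : Multiset ℕ)
    (h : ∀ t ∈ s, f t ∣ x) : (s.map f).prod ∣ x ^ Multiset.card s := by
  induction s using Multiset.induction_on with
  | empty => simp
  | cons a s ih =>
    rw [Multiset.map_cons, Multiset.prod_cons, Multiset.card_cons, pow_succ']
    exact mul_dvd_mul (h a (Multiset.mem_cons_self a s))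
      (ih (fun t ht => h t (Multiset.mem_cons_of_mem ht)))

theorem EXP_unit (L : Type) [Field L] [NumberField L] (p : ℕ) (hp : p.Prime) : ¬ IsUnit (p : 𝓞 L) := by
  intro h
  have h1 : IsUnit (algebraMap ℤ (𝓞 L) (p : ℤ)) := by
    rw [map_natCast]
    exact h
  have h2 : IsLocalHom (algebraMap ℤ (𝓞 L)) :=
    RingHom.IsIntegral.isLocalHom (algebraMap_isIntegral_iff.mpr inferInstance)
      (FaithfulSMul.algebraMap_injective ℤ (𝓞 L))
  have h3 : IsUnit (p : ℤ) := h2.map_nonunit _ h1
  rw [Int.isUnit_iff] at h3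
  have := hp.two_le
  omega

theorem EXP (hBAS : BAS_stmt) (hCPR : CPR_stmt) (hQUK : QUK_stmt) (hINJ : INJ_stmt) (hODD : ODD_stmt) :
    EXP_stmt := by
  intro m c K L _ _ _ _ _ _ z b hz hb s hs hcard p hp
  classical
  set a : ℕ := 2 ^ (2 ^ c) with ha
  have hcyc : Cyc (2 ^ m) z := hBAS m K z hz
  have hzN : z ^ 2 ^ m = -1 := hcyc.1.1
  have hzM : z ^ 2 ^ (m + 1) = 1 := hz.pow_eq_one
  have hN1 : 1 ≤ 2 ^ m := Nat.one_le_two_pow
  have hq := hQUK (2 ^ m) 1 a (𝓞 K) z hN1 le_rfl (by rw [one_mul]; exact hcyc)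
  set F : ℕ := a ^ 2 ^ m + 1 with hF
  have hF0 : 0 < F := by omega
  -- all conjugates of the factor
  have hconj : ∀ u : ℕ, Odd u → (∀ n₀ : ℤ, ff a z u ∣ (n₀ : 𝓞 K) → (F : ℤ) ∣ n₀) ∧
      ff a z u ∣ (F : 𝓞 K) := by
    intro u hu
    obtain ⟨σ, hσ⟩ := hcyc.2.2 u hu
    have h1 : σ (ff a z 1) = ff a z u := by
      unfold ff
      rw [map_sub, map_natCast, map_pow, hσ, pow_one]
    constructor
    · intro n₀ hn
      apply hq.1 n₀
      rw [← h1] at hn
      have h2 := map_dvd σ.symm hn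
      rw [RingEquiv.symm_apply_apply, map_intCast] at h2
      exact h2
    · have h2 := map_dvd σ hq.2
      rw [h1, map_natCast] at h2
      exact h2
  have hbf : ∀ t : ℕ, b (ff a z t) = ff a z ((2 ^ (m + 1) - 1) * t) := by
    intro t
    have h1 : b z = z ^ (2 ^ (m + 1) - 1) := by
      have h2 : z ^ (2 ^ (m + 1) - 1) * z = 1 := by
        rw [← pow_succ, Nat.sub_add_cancel Nat.one_le_two_pow, hzM]
      calc b z = b z * (z ^ (2 ^ (m + 1) - 1) * z) := by rw [h2, mul_one]
        _ = (b z * z) * z ^ (2 ^ (m + 1) - 1) := by ring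
        _ = z ^ (2 ^ (m + 1) - 1) := by rw [hb.1, one_mul]
    unfold ff
    rw [map_sub, map_natCast, map_pow, h1, ← pow_mul]
  have hMo : Odd (2 ^ (m + 1) - 1) := by
    refine Nat.Even.sub_odd Nat.one_le_two_pow ?_ odd_one
    exact ⟨2 ^ m, by ring⟩
  set α : 𝓞 K := (s.map (ff a z)).prod with hα
  have hbα : b α = (s.map (fun t => ff a z ((2 ^ (m + 1) - 1) * t))).prod := by
    rw [hα, map_multiset_prod, Multiset.map_map]
    congr 1
    refine Multiset.map_congr rfl ?_
    intro t _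
    exact hbf t
  set A : 𝓞 K := α * b α with hA
  set φ := algebraMap (𝓞 K) (𝓞 L) with hφ
  by_contra hcon
  push Not at hcon
  -- the radical
  have hrad : φ A ∈ (Ideal.span {(p : 𝓞 L)}).radical := by
    rw [Ideal.radical_eq_sInf, Ideal.mem_sInf]
    rintro P ⟨hP1, hP2⟩
    exact hcon P hP2 (hP1 (Ideal.mem_span_singleton_self _))
  rw [Ideal.mem_radical_iff] at hrad
  obtain ⟨k, hk⟩ := hrad
  rw [Ideal.mem_span_singleton] at hk
  -- the coprime factor
  obtain ⟨u, hu, hus⟩ := hODD m s hcard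
  have hcopA : IsCoprime (ff a z u) A := by
    rw [hA, hbα]
    refine IsCoprime.mul_right ?_ ?_
    · refine EXP_cop _ _ _ ?_
      intro t ht
      exact hCPR m c (𝓞 K) z hzN u t hu (hs t ht) (hus t ht).1
    · refine EXP_cop _ _ _ ?_
      intro t ht
      refine hCPR m c (𝓞 K) z hzN u _ hu (hMo.mul (hs t ht)) ?_
      intro h
      apply (hus t ht).2
      have h1 : (2 : ℤ) ^ (m + 1) ∣ ((u + t : ℕ) : ℤ) := by
        have h2 : ((u + t : ℕ) : ℤ) = ((u : ℤ) - (((2 ^ (m + 1) - 1) * t : ℕ) : ℤ)) + 2 ^ (m + 1) * t := by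
          rw [Nat.cast_mul, Nat.cast_sub Nat.one_le_two_pow]
          push_cast
          ring
        rw [h2]
        exact dvd_add h (Dvd.intro _ rfl)
      exact_mod_cast h1
  have hcop : IsCoprime (φ (ff a z u)) (p : 𝓞 L) := by
    have h1 : IsCoprime (φ (ff a z u)) (φ A ^ k) := (hcopA.map φ).pow_right
    exact IsCoprime.of_isCoprime_of_dvd_right h1 hk
  by_cases hpF : p ∣ F
  · obtain ⟨D, hD⟩ := hpF
    have hD0 : 0 < D := by
      rcases Nat.eq_zero_or_pos D with h | h
      · rw [h, mul_zero] at hD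
        omega
      · exact h
    have hDF : D < F := by
      rw [hD]
      have := hp.two_le
      nlinarith
    obtain ⟨x, y, hxy⟩ := hcop
    obtain ⟨g, hg⟩ := map_dvd φ (hconj u hu).2
    have hdvd : φ (ff a z u) ∣ (D : 𝓞 L) := by
      refine ⟨x * D + y * g, ?_⟩
      have h1 : (D : 𝓞 L) * (p : 𝓞 L) = φ (ff a z u) * g := by
        rw [← hg, map_natCast, hD]
        push_cast
        ring
      calc (D : 𝓞 L) = (x * φ (ff a z u) + y * (p : 𝓞 L)) * D := by rw [hxy, one_mul]
        _ = φ (ff a z u) * (x * D) + y * (D * (p : 𝓞 L)) := by ring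
        _ = φ (ff a z u) * (x * D + y * g) := by rw [h1]; ring
    have hI : Ideal.span {ff a z u, (D : 𝓞 K)} = Ideal.span {ff a z u} := by
      apply hINJ K L
      rw [Ideal.map_span, Ideal.map_span, Set.image_pair, Set.image_singleton, map_natCast]
      exact Ideal.span_pair_eq_span_left_iff_dvd.mpr hdvd
    have h2 : (D : 𝓞 K) ∈ Ideal.span {ff a z u} := by
      rw [← hI]
      exact Ideal.subset_span (Set.mem_insert_of_mem _ rfl)
    rw [Ideal.mem_span_singleton] at h2
    have h3 := (hconj u hu).1 (D : ℤ) (by exact_mod_cast h2)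
    have h4 : F ∣ D := by exact_mod_cast h3
    have := Nat.le_of_dvd hD0 h4
    omega
  · have hAF : A ∣ (F : 𝓞 K) ^ (Multiset.card s + Multiset.card s) := by
      rw [pow_add, hA]
      refine mul_dvd_mul ?_ ?_
      · exact EXP_dvd _ _ _ (fun t ht => (hconj t (hs t ht)).2)
      · rw [hbα]
        exact EXP_dvd _ _ _ (fun t ht => (hconj _ (hMo.mul (hs t ht))).2)
    have h1 : (p : 𝓞 L) ∣ (F : 𝓞 L) ^ ((Multiset.card s + Multiset.card s) * k) := by
      refine hk.trans ?_
      rw [pow_mul]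
      refine pow_dvd_pow_of_dvd ?_ k
      have h2 := map_dvd φ hAF
      rw [map_pow, map_natCast] at h2
      exact h2
    have h2 : IsCoprime (p : 𝓞 L) ((F : 𝓞 L) ^ ((Multiset.card s + Multiset.card s) * k)) := by
      have h3 : Nat.Coprime p F := (Nat.Prime.coprime_iff_not_dvd hp).mpr hpF
      have h4 : IsCoprime (p : ℤ) (F : ℤ) := Nat.isCoprime_iff_coprime.mpr h3
      have h5 := h4.map (Int.castRingHom (𝓞 L))
      simp only [eq_intCast, Int.cast_natCast] at h5
      exact h5.pow_right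
    exact EXP_unit L p hp (h2.isUnit_of_dvd' dvd_rfl h1)

end Pool.Agent.UFG
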