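import Pool.Agent.helper76.UFG.Spec

/-! Row ufg:FAM of MP_37e5fa_nt -/

set_option autoImplicit false

namespace Pool.Agent.UFG

open Finset NumberField nonZeroDivisors Pool.Agent.UF

theorem FAM : FAM_stmt := by
  intro n M R _ y hn hM hy
  classical
  have key : ∀ p : ℕ, ∃ (k : ℕ) (s : R ≃+* R), p ∈ n.primeFactors → s y = y ^ k ∧
      k ≡ 1 [MOD n / p ^ n.factorization p] ∧ (p ≠ 2 → k ≡ 2 [MOD p ^ n.factorization p]) ∧
      (p = 2 → k ≡ 1 + M [MOD p ^ n.factorization p]) := by
    intro p
    by_cases hp : p ∈ n.primeFactors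
    · have hpp : p.Prime := Nat.prime_of_mem_primeFactors hp
      have hcop : Nat.Coprime (p ^ n.factorization p) (n / p ^ n.factorization p) :=
        (Nat.coprime_ordCompl hpp hn).pow_left _
      obtain ⟨k, hk, hk1⟩ := Nat.chineseRemainder hcop (if p = 2 then 1 + M else 2) 1
      have hkn : Nat.Coprime k n := by
        rw [← Nat.ordProj_mul_ordCompl_eq_self n p]
        refine Nat.Coprime.mul_right ?_ ?_
        · have h1 : Nat.Coprime (if p = 2 then 1 + M else 2) (p ^ n.factorization p) := by
            refine Nat.Coprime.pow_right _ ?_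
            split_ifs with h2
            · rw [h2]
              have : Odd (1 + M) := odd_one.add_even hM
              exact (Nat.coprime_two_right).mpr this
            · exact (Nat.coprime_primes Nat.prime_two hpp).mpr (fun h => h2 h.symm)
          have h2 := hk.gcd_eq
          unfold Nat.Coprime at h1 ⊢
          rw [← h1, h2]
        · have h2 := hk1.gcd_eq
          unfold Nat.Coprime
          rw [h2, Nat.gcd_one_left]
      obtain ⟨s, hs⟩ := hy.2.2 k hkn
      refine ⟨k, s, fun _ => ⟨hs, hk1, ?_, ?_⟩⟩
      · intro h2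
        rwa [if_neg h2] at hk
      · intro h2
        rwa [if_pos h2] at hk
    · exact ⟨0, RingEquiv.refl R, fun h => absurd h hp⟩
  choose k σ hkσ using key
  exact ⟨k, σ, fun p hp => hkσ p hp⟩

end Pool.Agent.UFG
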