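import Pool.Agent.helper76.UFG.Spec

/-! Row ufg:GEN of MP_37e5fa_nt -/

set_option autoImplicit false

namespace Pool.Agent.UFG

open Finset NumberField nonZeroDivisors Pool.Agent.UF

theorem GEN_dvd (n : ℕ) (hn : n ≠ 0) (x : ℤ)
    (h : ∀ p ∈ n.primeFactors, ((p ^ n.factorization p : ℕ) : ℤ) ∣ x) : (n : ℤ) ∣ x := by
  have h1 : (n : ℤ) = ∏ p ∈ n.primeFactors, ((p ^ n.factorization p : ℕ) : ℤ) := by
    rw [← Nat.cast_prod]
    congr 1
    exact (Nat.factorization_prod_pow_eq_self hn).symm
  rw [h1]
  refine Finset.prod_dvd_of_coprime ?_ h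
  intro p hp q hq hpq
  have hp' := Nat.prime_of_mem_primeFactors hp
  have hq' := Nat.prime_of_mem_primeFactors hq
  show IsCoprime _ _
  rw [Nat.isCoprime_iff_coprime]
  exact Nat.Coprime.pow _ _ ((Nat.coprime_primes hp' hq').mpr hpq)

theorem GEN : GEN_stmt := by
  intro n hn Q hQ1 hQm hQn k hk
  classical
  have key : ∀ S : Finset ℕ, S ⊆ n.primeFactors → ∃ a : ℕ, Q a ∧
      (∀ p ∈ S, a ≡ k [MOD p ^ n.factorization p]) ∧
      ∀ p ∈ n.primeFactors, p ∉ S → a ≡ 1 [MOD p ^ n.factorization p] := by
    intro S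
    induction S using Finset.induction_on with
    | empty =>
      intro _
      exact ⟨1, hQ1, by simp, fun p _ _ => Nat.ModEq.refl _⟩
    | insert q S hq ih =>
      intro hS
      obtain ⟨a, ha, ha1, ha2⟩ := ih ((Finset.subset_insert q S).trans hS)
      have hqn : q ∈ n.primeFactors := hS (Finset.mem_insert_self q S)
      have hqp : q.Prime := Nat.prime_of_mem_primeFactors hqn
      have hcop : Nat.Coprime (q ^ n.factorization q) (n / q ^ n.factorization q) :=
        (Nat.coprime_ordCompl hqp hn).pow_left _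
      obtain ⟨a', hk', h1'⟩ := Nat.chineseRemainder hcop k 1
      have hQa' : Q a' := hk q hqn a' hk' h1'
      have hother : ∀ p ∈ n.primeFactors, p ≠ q → a' ≡ 1 [MOD p ^ n.factorization p] := by
        intro p hp hpq
        refine h1'.of_dvd ?_
        have hpp : p.Prime := Nat.prime_of_mem_primeFactors hp
        have h2 : p ^ n.factorization p ∣ q ^ n.factorization q * (n / q ^ n.factorization q) := by
          rw [Nat.ordProj_mul_ordCompl_eq_self]
          exact Nat.ordProj_dvd n p
        exact (Nat.Coprime.pow _ _ ((Nat.coprime_primes hpp hqp).mpr hpq)).dvd_of_dvd_mul_left h2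
      refine ⟨a * a', hQm _ _ ha hQa', ?_, ?_⟩
      · intro p hp
        rw [Finset.mem_insert] at hp
        rcases hp with rfl | hp
        · have := (ha2 p hqn hq).mul hk'
          rwa [one_mul] at this
        · have hpq : p ≠ q := by
            rintro rfl
            exact hq hp
          have := (ha1 p hp).mul (hother p (hS (Finset.mem_insert_of_mem hp)) hpq)
          rwa [mul_one] at this
      · intro p hp hp'
        rw [Finset.mem_insert, not_or] at hp'
        have := (ha2 p hp hp'.2).mul (hother p hp hp'.1)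
        rwa [mul_one] at this
  obtain ⟨a, ha, ha1, -⟩ := key n.primeFactors (Finset.Subset.refl _)
  refine hQn a k ?_ ha
  rw [Nat.modEq_iff_dvd]
  refine GEN_dvd n hn _ ?_
  intro p hp
  have := ha1 p hp
  rw [Nat.modEq_iff_dvd] at this
  exact this

end Pool.Agent.UFG
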