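import Pool.Agent.helper76.UFG.Spec

/-! Row ufg:ODD of MP_37e5fa_nt -/

set_option autoImplicit false

namespace Pool.Agent.UFG

open Finset NumberField nonZeroDivisors Pool.Agent.UF

theorem ODD : ODD_stmt := by
  intro m s hs
  classical
  set M : ℕ := 2 ^ (m + 1) with hM
  have hMpos : 0 < M := by positivity
  set A : Finset ℕ := (range (2 ^ m)).image (fun i => 2 * i + 1) with hA
  have hAc : A.card = 2 ^ m := by
    rw [hA, Finset.card_image_of_injective _ (fun a b h => by simpa using h), Finset.card_range]
  set B : Finset ℕ := (s.map (fun t => t % M)).toFinset ∪ (s.map (fun t => (M - t % M) % M)).toFinset with hB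
  have hBc : B.card ≤ 2 * Multiset.card s := by
    refine (Finset.card_union_le _ _).trans ?_
    have h1 := Multiset.toFinset_card_le (s.map (fun t => t % M))
    have h2 := Multiset.toFinset_card_le (s.map (fun t => (M - t % M) % M))
    rw [Multiset.card_map] at h1 h2
    omega
  obtain ⟨u, huA, huB⟩ := Finset.exists_mem_notMem_of_card_lt_card (s := B) (t := A) (by omega)
  rw [hA, Finset.mem_image] at huA
  obtain ⟨i, hi, rfl⟩ := huA
  rw [Finset.mem_range] at hi
  have hlt : 2 * i + 1 < M := by
    rw [hM, pow_succ]
    omega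
  refine ⟨2 * i + 1, ⟨i, rfl⟩, ?_⟩
  intro t ht
  rw [hB, Finset.mem_union, Multiset.mem_toFinset, Multiset.mem_toFinset, Multiset.mem_map,
    Multiset.mem_map] at huB
  push Not at huB
  constructor
  · intro h
    apply huB.1 t ht
    have h1 : (t : ℕ) ≡ 2 * i + 1 [MOD M] := by
      rw [Nat.modEq_iff_dvd]
      rw [hM]
      push_cast at h ⊢
      exact h
    have h2 : t % M = (2 * i + 1) % M := h1
    rw [h2, Nat.mod_eq_of_lt hlt]
  · intro h
    apply huB.2 t ht
    have h0 := Nat.mod_lt t hMpos
    have h1 : M ∣ (2 * i + 1) + t % M := by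
      have h3 : 2 * i + 1 + t = (2 * i + 1 + t % M) + M * (t / M) := by
        have := Nat.mod_add_div t M
        omega
      rw [h3] at h
      exact (Nat.dvd_add_left (Dvd.intro _ rfl)).mp h
    obtain ⟨c, hc⟩ := h1
    have hc1 : c = 1 := by
      have h4 : c ≠ 0 := by
        rintro rfl
        omega
      have h5 : c < 2 := by
        by_contra h5
        have : M * 2 ≤ M * c := Nat.mul_le_mul_left M (by omega)
        omega
      omega
    rw [hc1, mul_one] at hc
    rw [show M - t % M = 2 * i + 1 by omega, Nat.mod_eq_of_lt hlt]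

end Pool.Agent.UFG
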